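import Pool.Agent.Lib.MP_7cdc3e_gt.C.T4c.Defs

/-!
# MP_7cdc3e_gt, C32, section T4c: statements

From the axioms `Hyp` (to be delivered by T4a and T4b for a regular point) to the structure `D1.Sys` of
`C/D1/Spec.lean`.  Every `S_...` is a statement to be proved in its own file `C/T4c/<Name>.lean` as
`theorem t<Name>` in the namespace `TightRP.T4c`, with the statements it uses as hypotheses.  The
docstring contains the complete proof.  `C/T4c/Cone.lean` contains proved lemmas on faces of cones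
(`Fa_face`, `Fa_sub`, `Fc.exists_gen`, `Fc.mem_of_span`, `Fc.eq_of_dm`, `Fc.dm_lt`, `exists_eps`, `Fc.isCone`,
`Fc.kernel`, `Du_cone`, `Du_pos`, `interior_add`, ...).
-/

set_option autoImplicit false

open scoped RealInnerProductSpace
open Module HoloConj Pool.Agent.Lib.SingHom

namespace TightRP

namespace T4c

/-- **Sep** (40 lines).  Separation from a closed convex cone.

Proof.  `geometric_hahn_banach_closed_point` (`C` convex closed, `x ∉ C`: `f c < u < f x` for `c ∈ C`); as `C` is a cone `f ≤ 0` on `C` and `u > 0`; take `y` with `⟪y, z⟫ = -f z` (`InnerProductSpace.toDual`); or Mathlib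
lemmas on `ProperCone` (search `hyperplane_separation`). -/
def S_Sep : Prop :=
  ∀ (K : Type) [NormedAddCommGroup K] [InnerProductSpace ℝ K] [FiniteDimensional ℝ K]
    (C : Set K),
  IsClosed C → (0 : K) ∈ C → (∀ x ∈ C, ∀ y ∈ C, x + y ∈ C) → (∀ x ∈ C, ∀ t : ℝ, 0 ≤ t → t • x ∈ C) →
    ∀ x, x ∉ C → ∃ y : K, (∀ z ∈ C, 0 ≤ ⟪y, z⟫) ∧ ⟪y, x⟫ < 0

/-- **Lea** (60 lines).  Leaving a cone.

Proof.  `T = {t ∈ [0,1] | (1-t) • y₀ + t • y ∈ Y}` is closed and contains `0`; `t₀ = sSup T ∈ T`, `t₀ < 1` because `y ∉ Y`.  `e = (1-t₀) • y₀ + t₀ • y`.  If `Fa Y e = Y` then `exists_eps` (with `F = Y = L`,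
`Fc.self`, direction `y - y₀ ∈ span Y`) gives `e + s • (y - y₀) ∈ Y` for small `s > 0`, so `t₀ + s ∈ T` for `s ≤ 1 - t₀`: contradiction. -/
def S_Lea : Prop :=
  ∀ (K : Type) [NormedAddCommGroup K] [InnerProductSpace ℝ K] [FiniteDimensional ℝ K]
    (Y : Set K), IsCone Y →
  ∀ y₀ ∈ Y, ∀ y ∈ Submodule.span ℝ Y, y ∉ Y →
    ∃ t : ℝ, 0 ≤ t ∧ t < 1 ∧ (1 - t) • y₀ + t • y ∈ Y ∧ Fa Y ((1 - t) • y₀ + t • y) ≠ Y

/-- **Cls** (70 lines).  `C + A` is closed if `C ∩ A = 0`.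

Proof.  Let `z_n → z`, `x_n ∈ C`, `z_n - x_n ∈ A`.  If `‖x_n‖` is bounded (along a subsequence), a subsequence of `x_n` converges to `x ∈ C`, `z - x ∈ A` (`A` closed).  Otherwise `‖x_n‖ → ∞` and a
subsequence of `‖x_n‖⁻¹ • x_n` converges to `u`, `‖u‖ = 1`, `u ∈ C`; `‖x_n‖⁻¹ • (z_n - x_n) → -u ∈ A`: contradiction.  (Alternative: `u ↦ dist(u, A)` has a positive minimum `c` on the compact set
`C ∩ sphere`, so `‖x‖ ≤ c⁻¹ dist(x, A) ≤ c⁻¹ ‖z‖` whenever `x ∈ C`, `z - x ∈ A`; then the set is locally the projection of a compact set.  Or: the image of `C` in the quotient, `ImgStmt` of `C/D1`.) -/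
def S_Cls : Prop :=
  ∀ (K : Type) [NormedAddCommGroup K] [InnerProductSpace ℝ K] [FiniteDimensional ℝ K]
    (C : Set K) (A : Submodule ℝ K),
  IsClosed C → (0 : K) ∈ C → (∀ x ∈ C, ∀ t : ℝ, 0 ≤ t → t • x ∈ C) → (∀ x ∈ C, x ∈ A → x = 0) →
    IsClosed {z : K | ∃ x ∈ C, z - x ∈ A}

/-- **SA** (120 lines).  The face `Y` of the dual cone attached to `R`.

Proof.  `D = Du L` is a cone (`Du_cone`), `v y ∈ D`.  (0) If `p ∈ Y`, `Fa D p = Y` then `LY L Y = {x ∈ L | ⟪p, x⟫ = 0}` (`t • p - q ∈ D` for `q ∈ Y`), a face of `L` (`Fc.kernel`).  `r` a generator of `R` (`Fc.exists_gen`), `r ≠ 0`, `r ∈ Z`; `N = {p ∈ D | ⟪r, p⟫ = 0}` is a face of `D` (`Fc.kernel` for the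
cone `D`, `r ∈ Du D`).
(1) `LY L N` is thin: `x ∈ LY L N`, `x ≠ 0`: (a1) with `r`: `⟪v y, r⟫ = 0` gives `v y ∈ N`, so `⟪v y, x⟫ = 0`.
(2) Choose `Y` among the faces of `D` contained in `N` with `Thin Z (LY L Y)` with `dm Y` minimal (`Nat.find`).
(3) `ker`: `LY L Y` is a face, thin, contains `R` (`p ∈ Y ⊆ N` vanishes at `r`, so on `R = Fa L r`), so it is `R` (`MaxT.max`).  (4) `prop`: `Fc.dm_lt` and minimality.
(5) `notE`: suppose `Y ⊆ E`; `p` a generator of `Y`.  If `p = 0` then `LY L Y = L` is thin, but `h ∈ interior L` is not in `Z` (a2) and not `0` (otherwise `L` is everything, not pointed as `dim = 6`).  If `p ≠ 0`: (a3) gives `x ∈ L`, `⟪p, x⟫ = 0`, `x ≠ 0`, `x ∉ Z`, and `x ∈ LY L Y`: contradiction.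
(6) `three`: (a11) and (5). -/
def S_SA : Prop :=
  ∀ (F : Type) [Field F] (K : Type) [NormedAddCommGroup K] [InnerProductSpace ℝ K]
    [FiniteDimensional ℝ K] (M : Type) [TopologicalSpace M] (L E Z R : Set K) (v : M → K), Hyp F L E Z v → MaxT L Z R → ∃ Y, YR L E Z R Y

/-- **SB** (150 lines; uses `S_Sep`, `S_Lea`, `S_Cls`).  The section property.

Proof.  `D = Du L`, `A = (span Y)ᗮ`.  `R ⊆ A` and `L ∩ A ⊆ R` (`YR.ker`).  `y₀` a generator of `Y` (`Fc.exists_gen` in `D`).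
(1) Let `F'` be a not thin face, disjoint from `R`, `x ∈ L`, `C = {z | ∃ f ∈ F', z - f ∈ A}` and suppose `x ∉ C`.  `C` is closed (`S_Cls`, `Fc.closed`, `F' ∩ A ⊆ F' ∩ R = 0`) and a cone; `S_Sep`: `y` with `⟪y, z⟫ ≥ 0` on `C` and `⟪y, x⟫ < 0`.  `A ⊆ C`, `A` a subspace, so `y ∈ Aᗮ = span Y`; `F' ⊆ C`, so `⟪y, f⟫ ≥ 0` on
`F'`.  `y ∉ Y` because `Y ⊆ D`, `x ∈ L`.  `S_Lea` in the cone `Y` (`Fc.isCone`): `e = (1-t) • y₀ + t • y ∈ Y`, `0 ≤ t < 1`, `Fa Y e ≠ Y`; `Y' = Fa Y e = Fa D e` (`Fa_in`) is a face of `D` in `Y`, so `LY L Y'` is not thin (`YR.prop`); it is the face `{x ∈ L | ⟪e, x⟫ = 0}` (as `s • e - q ∈ D` for `q ∈ Y'`).  (a5): `f ∈ F'`, `f ≠ 0`,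
`⟪e, f⟫ = 0`.  But `⟪y₀, f⟫ > 0` (otherwise `⟪q, f⟫ = 0` for all `q ∈ Y = Fa D y₀`, `f ∈ LY L Y = R`, `f = 0`), `⟪y, f⟫ ≥ 0`, so `⟪e, f⟫ > 0`: contradiction.
(2) `finrank A = 6 - dm Y ≤ 3` (`Submodule.finrank_add_finrank_orthogonal`), `R ⊆ A`, so `dm R ≤ 3`; (a7): `e ∈ E` positive on `R - 0`, `e ≠ 0` (`MaxT.ne`); (a3): the face `{x ∈ L | ⟪e, x⟫ = 0}` is not thin; (a4): a line `F'` in it; it is disjoint from `R`.  (3) For this `F'`: `L ⊆ F' + A` by (1), `span L = ⊤` (`span_top`), so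
`6 ≤ 3 + finrank A`, `finrank A = 3`. -/
def S_SB : Prop :=
  ∀ (F : Type) [Field F] (K : Type) [NormedAddCommGroup K] [InnerProductSpace ℝ K]
    [FiniteDimensional ℝ K] (M : Type) [TopologicalSpace M] (L E Z R Y : Set K) (v : M → K), Hyp F L E Z v → MaxT L Z R → YR L E Z R Y →
  finrank ℝ (Submodule.span ℝ Y)ᗮ = 3 ∧
    ∀ G, Fc L G → ¬ Thin Z G → Dis G R → ∀ x ∈ L, ∃ f ∈ G, x - f ∈ (Submodule.span ℝ Y)ᗮ

/-- **Cap** (60 lines).  A compact set outside of a face of the dual cone.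

Proof.  `C' = {x ∈ Du L | x ∉ Y}` is convex: if `a • x + b • x' ∈ Y` with `a, b ≥ 0`, `a + b = 1` then `a • x, b • x' ∈ Y` (face), and one of `a, b` is positive, so `x ∈ Y` or `x' ∈ Y` (`Fc.of_smul`).  So `convexHull ℝ (v '' Q) ⊆ C'` (`convexHull_min`), and it is disjoint from `span Y` (`Fc.mem_of_span`).  It is compact
(`v '' Q` compact; convex hull of a compact set in finite dimension: `TightRP.Q.qCvh` or `C32.T4b.compact_hull`, or `convexHull_eq_union`).  `geometric_hahn_banach_compact_closed` with the closed convex set `span Y`: `f < u` on the hull, `u < w < f` on `span Y`; a linear form which is bounded below on a subspace is `0` on it, so `w < 0`; `k` = vector of `-f`. -/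
def S_Cap : Prop := ∀ (K : Type) [NormedAddCommGroup K] [InnerProductSpace ℝ K]
  [FiniteDimensional ℝ K] (M : Type) [TopologicalSpace M] (L Y : Set K) (v : M → K) (Q : Set M),
  Continuous v → (∀ y, v y ∈ Du L) → Fc (Du L) Y → IsCompact Q → (∀ y ∈ Q, v y ∉ Y) →
    ∃ k : K, (∀ p ∈ Y, ⟪p, k⟫ = 0) ∧ ∀ y ∈ Q, 0 < ⟪v y, k⟫

/-- **Pick** (90 lines).  Two points and two functions.

Proof.  Choose `m₁ ∈ B`, `m₁ ≠ 0`, `y₁ ∈ N` with `a = ⟪v y₁, m₁⟫ ≠ 0`; `m₂ ∈ B`, `m₂ ≠ 0`, `⟪v y₁, m₂⟫ = 0` (`finrank B = 2`: the kernel of a functional on `B` is not `0`), `y₂ ∈ N` with `d = ⟪v y₂, m₂⟫ ≠ 0`, `b = ⟪v y₂, m₁⟫`.  `k₁ = a⁻¹ • m₁ + ((1 - b/a)/d) • m₂`, `k₂ = a⁻¹ • m₁ + ((-1 - b/a)/d) • m₂`.  `k₁, k₂` are independent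
(values at `y₁, y₂`), so they span `B`; so for `y ∈ N` not both `⟪v y, k₁⟫` and `⟪v y, k₂⟫` vanish. -/
def S_Pick : Prop := ∀ (K : Type) [NormedAddCommGroup K] [InnerProductSpace ℝ K]
  [FiniteDimensional ℝ K] (M : Type) (B : Submodule ℝ K) (v : M → K) (N : Set M),
  finrank ℝ B = 2 → (∀ m ∈ B, m ≠ 0 → ∃ y ∈ N, ⟪v y, m⟫ ≠ 0) →
    (∀ y ∈ N, ∃ m ∈ B, ⟪v y, m⟫ ≠ 0) →
      ∃ y₁ ∈ N, ∃ y₂ ∈ N, ∃ k₁ ∈ B, ∃ k₂ ∈ B, ⟪v y₁, k₁⟫ = 1 ∧ ⟪v y₂, k₁⟫ = 1 ∧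
        ⟪v y₁, k₂⟫ = 1 ∧ ⟪v y₂, k₂⟫ = -1 ∧ (∀ y ∈ N, ⟪v y, k₁⟫ ≠ 0 ∨ ⟪v y, k₂⟫ ≠ 0) ∧
        ∀ s t : ℝ, s • k₁ + t • k₂ = 0 → s = 0 ∧ t = 0

/-- **Hsp** (70 lines).  A union of half-spaces is connected.

Proof.  `H θ = {y | 0 < ⟪v y, cos θ • k₂ - sin θ • k₁⟫}`, `0 ≤ θ ≤ π`, open, preconnected, not empty.  Let `U, V` be open, `⋃ H θ ⊆ U ∪ V`, and suppose `⋃ H θ` does not meet `U ∩ V` but meets `U` and `V`.  For every `θ` the preconnected set `H θ` does not meet both.  `T_U = {θ ∈ [0,π] | H θ ∩ U ≠ ∅}` is relatively open (if `y ∈ H θ ∩ U` then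
`y ∈ H θ'` for `θ'` near `θ`, by continuity in `θ`), so is `T_V`; they cover `[0,π]` (`H θ ≠ ∅`), are disjoint, and both are nonempty: contradiction to `isPreconnected_Icc`.  (`isPreconnected_Icc` with the open sets `{θ | ∃ y ∈ U, 0 < ⟪v y, ..⟫}` of `ℝ`.) -/
def S_Hsp : Prop := ∀ (K : Type) [NormedAddCommGroup K] [InnerProductSpace ℝ K]
  (M : Type) [TopologicalSpace M] (v : M → K) (k₁ k₂ : K), Continuous v →
  (∀ k : K, IsPreconnected {y : M | 0 < ⟪v y, k⟫}) →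
  (∀ θ ∈ Set.Icc (0 : ℝ) Real.pi, ∃ y, 0 < ⟪v y, Real.cos θ • k₂ - Real.sin θ • k₁⟫) →
    IsPreconnected {y : M | ∃ θ ∈ Set.Icc (0 : ℝ) Real.pi,
      0 < ⟪v y, Real.cos θ • k₂ - Real.sin θ • k₁⟫}

/-- **Rng** (200 lines; uses `S_Cap`, `S_Pick`, `S_Hsp`, `Ver.JoinStmt`, `Ver.SuppStmt`, `Ver.CrossStmt`).  RANGE.

Proof.  `A = (span Y)ᗮ`.  Suppose there are no such `y`, `t`.  `B = A ⊓ (span {c})ᗮ`: `x₀ ∈ R`, `x₀ ≠ 0` is in `A` (`YR.ker`) and `⟪c, x₀⟫ > 0`, so `finrank B = 2` and `A = B ⊔ span {x₀}`.  `N = {y | v y ∉ Y}`.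
(1) `m ∈ B`, `m ≠ 0`: there is `y` with `⟪v y, m⟫ > 0`; otherwise `-m ∈ L` (`Hyp.mem`), `-m ∈ LY L Y = R`, `⟪c, -m⟫ = 0`, against `c > 0` on `R - 0`.  If `⟪v y, m⟫ ≠ 0` for some `m ∈ A` then `y ∈ N`.
(2) `y ∈ N`: some `m ∈ B` has `⟪v y, m⟫ ≠ 0`.  Otherwise with `t = ⟪v y, x₀⟫ / ⟪c, x₀⟫ ≥ 0`: `⟪v y, a⟫ = t ⟪c, a⟫` for `a ∈ A`.  `t > 0` is excluded; `t = 0`: `v y ∈ Aᗮ = span Y`, `v y ∈ Du L`, so `v y ∈ Y` (`Fc.mem_of_span`): contradiction.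
`S_Pick`: `y₁, y₂, k₁, k₂`.  `R' = {0 < ⟪v y, k₁⟫}` is open, preconnected, contains `y₁, y₂`: path connected (`IsOpen.isConnected_iff_isPathConnected`), `JoinStmt`: `τ ∈ inU F R' 1`, `sbd τ = pt y₂ - pt y₁`.  `S = {y | ∃ θ ∈ [0,π], 0 < ⟪v y, cos θ • k₂ - sin θ • k₁⟫}` is preconnected (`S_Hsp`, (1), `cos θ • k₂ - sin θ • k₁ ≠ 0` by
independence), open, contains `y₁` (`θ = 0`) and `y₂` (`θ = π`): `σ ∈ inU F S 1`, `sbd σ = pt y₁ - pt y₂`.  `SuppStmt`: compact carriers `C_σ ⊆ S`, `C_τ ⊆ R'`.  For `y ∈ S ∪ R'`: `v y ∉ Y` (1).  `S_Cap` with `Q = C_σ ∪ C_τ`: `k`; `X = {0 < ⟪v y, k⟫} ⊇ Q`, `X ⊆ N`.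
`P = X ∩ {⟪v y, k₂⟫ ≠ 0 ∨ ⟪v y, k₁⟫ < 0}`, `R'' = X ∩ R'`: `P ∪ R'' = X` (`S_Pick`).  `W₁ = {0 < k₁, 0 < k₂}`, `W₂ = {0 < k₁, k₂ < 0}` are open, disjoint, `P ∩ R'' ⊆ W₁ ∪ W₂`, `y₁ ∈ W₁`, `y₂ ∈ W₂`.  `σ ∈ inU F P 1` (for `y ∈ S`: `k₂ ≠ 0` or `k₁ < 0` because `sin θ ≥ 0`), `τ ∈ inU F R'' 1` (`inU` is monotone).  `CrossStmt` (`Hyp.hinj`):
`σ + τ` is not a boundary.  But it is a cycle in `inU F X 1` and `Y ⊄ E` (`YR.notE`): `Hyp.fill`: contradiction. -/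
def S_Rng : Prop :=
  ∀ (F : Type) [Field F] (K : Type) [NormedAddCommGroup K] [InnerProductSpace ℝ K]
    [FiniteDimensional ℝ K] (M : Type) [TopologicalSpace M] (L E Z R Y : Set K) (v : M → K), T2Space M → LocallyPathConnectedSpace M →
  Hyp F L E Z v → MaxT L Z R → YR L E Z R Y → finrank ℝ (Submodule.span ℝ Y)ᗮ = 3 →
    ∀ c : K, (∀ x ∈ R, x ≠ 0 → 0 < ⟪c, x⟫) →
      ∃ y : M, ∃ t : ℝ, 0 < t ∧ ∀ a ∈ (Submodule.span ℝ Y)ᗮ, ⟪v y, a⟫ = t * ⟪c, a⟫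

/-- **Sec** (100 lines; uses `S_SA`, `S_SB`, `S_Rng`).  The section property in the language of `C/D1`.

Proof.  `Y` (`S_SA`), `A = (span Y)ᗮ`, `finrank A = 3` (`S_SB`).  `π : K → ℝ³` linear, onto, with kernel `A`: `K ⧸ A` has dimension 3 (`Submodule.finrank_quotient_add_finrank`), compose `A.mkQ` with a linear equivalence to `Fin 3 → ℝ`.  `ker`: `R = LY L Y`.  `ev`: let `c : K →ₗ[ℝ] ℝ` be positive on `R - 0`; write it as a vector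
(`InnerProductSpace.toDual`, `LinearMap.toContinuousLinearMap`).  `S_Rng`: `y, t`; `e = t⁻¹ • v y ∈ E`, `e = c` on `A`, `≥ 0` on `L`, `e ≠ 0` (`MaxT.ne`).  (a3): `{l ∈ L | ⟪e, l⟫ = 0}` contains `x ∉ Z`, `x ≠ 0`; it is a face (`Fc.kernel`), not thin, disjoint from `R`; `S_SB` for `G =` this face gives the last claim. -/
def S_Sec : Prop :=
  ∀ (F : Type) [Field F] (K : Type) [NormedAddCommGroup K] [InnerProductSpace ℝ K]
    [FiniteDimensional ℝ K] (M : Type) [TopologicalSpace M] (L E Z R : Set K) (v : M → K), T2Space M → LocallyPathConnectedSpace M →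
  Hyp F L E Z v → MaxT L Z R → ∃ π : K →ₗ[ℝ] (Fin 3 → ℝ), D1.Sec L (insert 0 Z) R π

/-- **T4c** (90 lines; uses `S_Sec`).  The axioms give `D1.Sys`.

Proof.  `CPC L` from `Hyp.cone`, `span` by `span_top`.  `D1.Face L G ↔ Fc L G` (rearrange), `¬ G ⊆ insert 0 Z ↔ ¬ Thin Z G` (unfold), `D1.sdim = dm` (`rfl`), `D1.Line L (insert 0 Z) G ↔ Fc L G ∧ ¬ Thin Z G ∧ dm G = 3`.  `meet`, `line`, `two` are (a5), (a4), (a8).  `sec`: `D1.MaxZ L (insert 0 Z) R` gives `MaxT L Z R` (`R ≠ {0}` and `0 ∈ R`: there is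
`x ∈ R`, `x ≠ 0`); `S_Sec`. -/
def S_T4c : Prop :=
  ∀ (F : Type) [Field F] (K : Type) [NormedAddCommGroup K] [InnerProductSpace ℝ K]
    [FiniteDimensional ℝ K] (M : Type) [TopologicalSpace M] (L E Z : Set K) (v : M → K), T2Space M → LocallyPathConnectedSpace M →
  Hyp F L E Z v → D1.Sys L (insert 0 Z)

end T4c

end TightRP
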