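import Pool.Agent.Lib.MP_7cdc3e_gt.C.T4c.Spec
import Pool.Agent.Lib.MP_7cdc3e_gt.Q.Cvh

/-!
# MP_7cdc3e_gt, C32, T4c, Cap: a compact set outside of a face of the dual cone
-/

set_option autoImplicit false

open scoped RealInnerProductSpace Topology
open Module Filter

namespace TightRP

namespace T4c

private theorem Cap_hull {E : Type} [NormedAddCommGroup E] [NormedSpace ℝ E]
    [FiniteDimensional ℝ E] {s : Set E} (hs : IsCompact s) : IsCompact (convexHull ℝ s) := by
  let φ : E ≃L[ℝ] EuclideanSpace ℝ (Fin (Module.finrank ℝ E)) := toEuclidean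
  have h1 : IsCompact (convexHull ℝ (φ '' s)) := TightRP.Q.qCvh _ _ (hs.image φ.continuous)
  have h2 : convexHull ℝ (φ '' s) = φ '' convexHull ℝ s :=
    (LinearMap.image_convexHull (φ.toLinearEquiv.toLinearMap) s).symm
  rw [h2] at h1
  have h3 := h1.image φ.symm.continuous
  rwa [← Set.image_comp, show (φ.symm ∘ φ : E → E) = id from by ext x; simp, Set.image_id] at h3

theorem tCap : S_Cap := by
  intro K _ _ _ M _ L Y v Q hv hvD hY hQ hQY
  have hconv : Convex ℝ {x : K | x ∈ Du L ∧ x ∉ Y} := by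
    intro x hx y hy a b ha hb hab
    refine ⟨Du_add _ (Du_smul _ hx.1 _ ha) _ (Du_smul _ hy.1 _ hb), fun h => ?_⟩
    have h1 : a • x ∈ Y := hY.ext _ (Du_smul _ hx.1 _ ha) _ (Du_smul _ hy.1 _ hb) h
    have h2 : b • y ∈ Y := hY.ext' (Du_smul _ hx.1 _ ha) (Du_smul _ hy.1 _ hb) h
    rcases ha.lt_or_eq with h3 | h3
    · exact hx.2 (hY.of_smul h3 h1)
    · have h4 : 0 < b := by rw [← h3, zero_add] at hab; rw [hab]; exact one_pos
      exact hy.2 (hY.of_smul h4 h2)
  have hsub : convexHull ℝ (v '' Q) ⊆ {x : K | x ∈ Du L ∧ x ∉ Y} := by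
    refine convexHull_min ?_ hconv
    rintro _ ⟨y, hy, rfl⟩
    exact ⟨hvD y, hQY y hy⟩
  have hcpt : IsCompact (convexHull ℝ (v '' Q)) := Cap_hull (hQ.image hv)
  have hdisj : Disjoint (convexHull ℝ (v '' Q)) (Submodule.span ℝ Y : Set K) := by
    rw [Set.disjoint_left]
    intro x hx hx'
    exact (hsub hx).2 (hY.mem_of_span (hsub hx).1 hx')
  obtain ⟨f, u, w, h1, h2, h3⟩ := geometric_hahn_banach_compact_closed (convex_convexHull ℝ _) hcpt
    (Submodule.convex (Submodule.span ℝ Y)) (Submodule.closed_of_finiteDimensional _) hdisj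
  have hw : w < 0 := by
    have := h3 0 (Submodule.zero_mem _)
    simpa using this
  have hf0 : ∀ p ∈ Submodule.span ℝ Y, f p = 0 := by
    intro p hp
    by_contra hne
    have h4 := h3 ((w / f p) • p) (Submodule.smul_mem _ _ hp)
    rw [map_smul, smul_eq_mul, div_mul_cancel₀ _ hne] at h4
    exact lt_irrefl _ h4
  have : CompleteSpace K := FiniteDimensional.complete ℝ K
  refine ⟨-((InnerProductSpace.toDual ℝ K).symm f), ?_, ?_⟩
  · intro p hp
    rw [inner_neg_right, real_inner_comm, InnerProductSpace.toDual_symm_apply,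
      hf0 p (Submodule.subset_span hp), neg_zero]
  · intro y hy
    rw [inner_neg_right, real_inner_comm, InnerProductSpace.toDual_symm_apply]
    have := h1 (v y) (subset_convexHull ℝ _ ⟨y, hy, rfl⟩)
    linarith

end T4c

end TightRP
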