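import Pool.Agent.Lib.MP_7cdc3e_gt.C.T4c.Spec

/-!
# MP_7cdc3e_gt, C32, T4c, Hsp: a union of half-spaces is connected
-/

set_option autoImplicit false

open scoped RealInnerProductSpace Topology
open Module

namespace TightRP

namespace T4c

theorem tHsp : S_Hsp := by
  intro K _ _ M _ v k₁ k₂ _ hpre hne U V hU hV hUV hSU hSV
  have hopen : ∀ W : Set M, IsOpen {θ : ℝ | ∃ y ∈ W, 0 < ⟪v y, Real.cos θ • k₂ - Real.sin θ • k₁⟫} := by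
    intro W
    have h1 : {θ : ℝ | ∃ y ∈ W, 0 < ⟪v y, Real.cos θ • k₂ - Real.sin θ • k₁⟫} =
        ⋃ y ∈ W, {θ : ℝ | 0 < ⟪v y, Real.cos θ • k₂ - Real.sin θ • k₁⟫} := by
      ext θ; simp
    rw [h1]
    refine isOpen_biUnion fun y _ => isOpen_lt continuous_const ?_
    exact continuous_const.inner
      ((Real.continuous_cos.smul continuous_const).sub (Real.continuous_sin.smul continuous_const))
  obtain ⟨θ, hθ, ⟨y₁, hy₁, h1⟩, ⟨y₂, hy₂, h2⟩⟩ := isPreconnected_Icc (α := ℝ) (a := 0) (b := Real.pi)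
    _ _ (hopen U) (hopen V) (by
      intro θ hθ
      obtain ⟨y, hy⟩ := hne θ hθ
      rcases hUV (show y ∈ {y : M | ∃ θ ∈ Set.Icc (0 : ℝ) Real.pi,
        0 < ⟪v y, Real.cos θ • k₂ - Real.sin θ • k₁⟫} from ⟨θ, hθ, hy⟩) with h | h
      · exact Or.inl ⟨y, h, hy⟩
      · exact Or.inr ⟨y, h, hy⟩) (by
      obtain ⟨y, ⟨θ, hθ, hy⟩, hyU⟩ := hSU
      exact ⟨θ, hθ, y, hyU, hy⟩) (by
      obtain ⟨y, ⟨θ, hθ, hy⟩, hyV⟩ := hSV
      exact ⟨θ, hθ, y, hyV, hy⟩)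
  obtain ⟨y, hy, hyUV⟩ := hpre (Real.cos θ • k₂ - Real.sin θ • k₁) U V hU hV
    (fun y hy => hUV ⟨θ, hθ, hy⟩) ⟨y₁, h1, hy₁⟩ ⟨y₂, h2, hy₂⟩
  exact ⟨y, ⟨θ, hθ, hy⟩, hyUV⟩

end T4c

end TightRP
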