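import Pool.Agent.Lib.MP_7cdc3e_gt.C.T4c.Spec

/-!
# MP_7cdc3e_gt, C32, section T4c: leaving a cone (`S_Lea`)
-/

set_option autoImplicit false

open scoped RealInnerProductSpace
open Module HoloConj Pool.Agent.Lib.SingHom

namespace TightRP

namespace T4c

theorem tLea : S_Lea := by
  intro K _ _ _ Y hY y₀ hy₀ y hy hyY
  have hcont : Continuous fun t : ℝ => (1 - t) • y₀ + t • y := by fun_prop
  have hTc : IsCompact {t : ℝ | t ∈ Set.Icc (0 : ℝ) 1 ∧ (1 - t) • y₀ + t • y ∈ Y} := by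
    have h1 : {t : ℝ | t ∈ Set.Icc (0 : ℝ) 1 ∧ (1 - t) • y₀ + t • y ∈ Y} =
        Set.Icc (0 : ℝ) 1 ∩ (fun t : ℝ => (1 - t) • y₀ + t • y) ⁻¹' Y := rfl
    rw [h1]
    exact isCompact_Icc.inter_right (hY.closed.preimage hcont)
  have hTne : {t : ℝ | t ∈ Set.Icc (0 : ℝ) 1 ∧ (1 - t) • y₀ + t • y ∈ Y}.Nonempty :=
    ⟨0, ⟨le_rfl, zero_le_one⟩, by simpa using hy₀⟩
  obtain ⟨⟨h0, h1⟩, hmem⟩ := hTc.sSup_mem hTne
  have hle : ∀ t ∈ {t : ℝ | t ∈ Set.Icc (0 : ℝ) 1 ∧ (1 - t) • y₀ + t • y ∈ Y},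
      t ≤ sSup {t : ℝ | t ∈ Set.Icc (0 : ℝ) 1 ∧ (1 - t) • y₀ + t • y ∈ Y} := fun t ht =>
    le_csSup hTc.bddAbove ht
  set t₀ := sSup {t : ℝ | t ∈ Set.Icc (0 : ℝ) 1 ∧ (1 - t) • y₀ + t • y ∈ Y} with ht₀
  have hlt : t₀ < 1 := by
    refine lt_of_le_of_ne h1 fun h => hyY ?_
    rw [h] at hmem
    simpa using hmem
  refine ⟨t₀, h0, hlt, hmem, fun hFa => ?_⟩
  have hv : y - y₀ ∈ Submodule.span ℝ Y := Submodule.sub_mem _ hy (Submodule.subset_span hy₀)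
  obtain ⟨ε, hε, hs⟩ := exists_eps hY (Fc.self hY) hFa hmem hv
  have hpos : 0 < min ε (1 - t₀) := lt_min hε (by linarith)
  have h2 := hs (min ε (1 - t₀)) (by rw [abs_of_pos hpos]; exact min_le_left _ _)
  have h3 := hle (t₀ + min ε (1 - t₀)) ⟨⟨by linarith, by linarith [min_le_right ε (1 - t₀)]⟩, by
    convert h2 using 1
    module⟩
  linarith

end T4c

end TightRP
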