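import Pool.Agent.Lib.MP_7cdc3e_gt.C.T4c.Spec

/-!
# MP_7cdc3e_gt, C32, section T4c: the statement `S_Pick` (two points and two functions)
-/

set_option autoImplicit false

open scoped RealInnerProductSpace
open Module HoloConj Pool.Agent.Lib.SingHom

namespace TightRP

namespace T4c

private theorem Pick_sub {K : Type} [NormedAddCommGroup K] [InnerProductSpace ℝ K]
    [FiniteDimensional ℝ K] {B : Submodule ℝ K} (hB : finrank ℝ B = 2) (e : K) {m₁ : K}
    (hm : m₁ ∈ B) (ha : ⟪e, m₁⟫ ≠ 0) : ∃ m₂ ∈ B, m₂ ≠ 0 ∧ ⟪e, m₂⟫ = 0 := by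
  have hm0 : m₁ ≠ 0 := by
    rintro rfl
    exact ha (inner_zero_right _)
  have h : ∃ m' ∈ B, m' ∉ Submodule.span ℝ {m₁} := by
    by_contra hno
    push Not at hno
    have h1 := Submodule.finrank_mono (s := B) (t := Submodule.span ℝ {m₁}) hno
    rw [finrank_span_singleton hm0] at h1
    omega
  obtain ⟨m', hm', hn⟩ := h
  refine ⟨m' - (⟪e, m'⟫ / ⟪e, m₁⟫) • m₁, B.sub_mem hm' (B.smul_mem _ hm), fun h0 => hn ?_, ?_⟩
  · rw [sub_eq_zero.1 h0]
    exact Submodule.smul_mem _ _ (Submodule.mem_span_singleton_self _)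
  · rw [inner_sub_right, inner_smul_right, div_mul_cancel₀ _ ha, sub_self]

theorem tPick : S_Pick := by
  intro K _ _ _ M B v N hB h1 h2
  obtain ⟨m₁, hm₁, hm₁0⟩ : ∃ m ∈ B, m ≠ 0 := by
    by_contra hno
    push Not at hno
    have h : B = ⊥ := by
      rw [eq_bot_iff]
      intro x hx
      exact (Submodule.mem_bot ℝ).2 (hno x hx)
    rw [h, finrank_bot] at hB
    omega
  obtain ⟨y₁, hy₁, ha⟩ := h1 m₁ hm₁ hm₁0
  obtain ⟨m₂, hm₂, hm₂0, h12⟩ := Pick_sub hB (v y₁) hm₁ ha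
  obtain ⟨y₂, hy₂, hd⟩ := h1 m₂ hm₂ hm₂0
  obtain ⟨k, hk⟩ : ∃ k : ℝ → K, ∀ r, k r ∈ B ∧ ⟪v y₁, k r⟫ = 1 ∧ ⟪v y₂, k r⟫ = r := by
    refine ⟨fun r => (⟪v y₁, m₁⟫)⁻¹ • m₁ + ((r - ⟪v y₂, m₁⟫ / ⟪v y₁, m₁⟫) / ⟪v y₂, m₂⟫) • m₂,
      fun r => ⟨B.add_mem (B.smul_mem _ hm₁) (B.smul_mem _ hm₂), ?_, ?_⟩⟩
    · show ⟪v y₁, _ + _⟫ = 1
      rw [inner_add_right, inner_smul_right, inner_smul_right, h12, mul_zero, add_zero,
        inv_mul_cancel₀ ha]
    · show ⟪v y₂, _ + _⟫ = r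
      rw [inner_add_right, inner_smul_right, inner_smul_right, div_mul_cancel₀ _ hd, div_eq_mul_inv,
        mul_comm (⟪v y₂, m₁⟫)]
      ring
  obtain ⟨hk1, e11, e21⟩ := hk 1
  obtain ⟨hk2, e12, e22⟩ := hk (-1)
  have hind : ∀ s t : ℝ, s • k 1 + t • k (-1) = 0 → s = 0 ∧ t = 0 := by
    intro s t h
    have f1 : ⟪v y₁, s • k 1 + t • k (-1)⟫ = 0 := by rw [h, inner_zero_right]
    have f2 : ⟪v y₂, s • k 1 + t • k (-1)⟫ = 0 := by rw [h, inner_zero_right]
    rw [inner_add_right, inner_smul_right, inner_smul_right, e11, e12] at f1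
    rw [inner_add_right, inner_smul_right, inner_smul_right, e21, e22] at f2
    constructor <;> linarith
  refine ⟨y₁, hy₁, y₂, hy₂, k 1, hk1, k (-1), hk2, e11, e21, e12, e22, ?_, hind⟩
  have hspan : Submodule.span ℝ {k 1, k (-1)} = B := by
    have hli : LinearIndependent ℝ ![k 1, k (-1)] := LinearIndependent.pair_iff.2 hind
    have hr : Set.range ![k 1, k (-1)] = {k 1, k (-1)} := by
      ext x
      constructor
      · rintro ⟨i, rfl⟩
        fin_cases i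
        · exact Or.inl rfl
        · exact Or.inr rfl
      · rintro (rfl | rfl)
        · exact ⟨0, rfl⟩
        · exact ⟨1, rfl⟩
    have hf := finrank_span_eq_card hli
    rw [hr, Fintype.card_fin] at hf
    refine Submodule.eq_of_le_of_finrank_eq ?_ (by rw [hf, hB])
    rw [Submodule.span_le]
    rintro x (rfl | rfl)
    · exact hk1
    · exact hk2
  intro y hy
  by_contra hno
  push Not at hno
  obtain ⟨m, hm, hne⟩ := h2 y hy
  rw [← hspan] at hm
  obtain ⟨s, t, rfl⟩ := Submodule.mem_span_pair.1 hm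
  apply hne
  rw [inner_add_right, inner_smul_right, inner_smul_right, hno.1, hno.2, mul_zero, mul_zero,
    add_zero]

end T4c

end TightRP
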