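import Pool.Agent.Lib.MP_7cdc3e_gt.C.T4c.Spec
import Pool.Agent.Lib.MP_7cdc3e_gt.A.Join
import Pool.Agent.Lib.MP_7cdc3e_gt.A.Supp
import Pool.Agent.Lib.MP_7cdc3e_gt.A.Cross

/-!
# MP_7cdc3e_gt, C32, T4c: RANGE
-/

set_option autoImplicit false

open scoped RealInnerProductSpace
open Module HoloConj Pool.Agent.Lib.SingHom

namespace TightRP

namespace T4c

private theorem Rng_mono {F : Type} [Field F] {X : Type} [TopologicalSpace X] {U V : Set X}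
    (h : U ⊆ V) {n : ℕ} {c : SC F X n} (hc : c ∈ inU F U n) : c ∈ inU F V n := by
  have h1 : c ∈ Finsupp.supported F F {σ : C(Sx n, X) | ∀ t, σ t ∈ U} := hc
  have h2 : c ∈ Finsupp.supported F F {σ : C(Sx n, X) | ∀ t, σ t ∈ V} := by
    refine Finsupp.supported_mono ?_ h1
    intro σ hσ t
    exact h (hσ t)
  exact h2

section lin

variable {K : Type} [NormedAddCommGroup K] [InnerProductSpace ℝ K] [FiniteDimensional ℝ K]
  {M : Type} {L E Z R Y : Set K} {v : M → K}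

/-- the kernel of `c` in `A` -/
private theorem Rng_dim {A : Submodule ℝ K} (hA : finrank ℝ A = 3) {c x₀ : K} (hx : x₀ ∈ A)
    (hc : ⟪c, x₀⟫ ≠ 0) : finrank ℝ (A ⊓ (Submodule.span ℝ {c})ᗮ : Submodule ℝ K) = 2 := by
  set B : Submodule ℝ K := A ⊓ (Submodule.span ℝ {c})ᗮ with hB
  have hsup : B ⊔ Submodule.span ℝ {x₀} = A := by
    apply le_antisymm
    · refine sup_le inf_le_left ?_
      rw [Submodule.span_le]
      rintro y rfl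
      exact hx
    · intro a ha
      rw [Submodule.mem_sup]
      refine ⟨a - (⟪c, a⟫ / ⟪c, x₀⟫) • x₀, ⟨A.sub_mem ha (A.smul_mem _ hx), ?_⟩,
        (⟪c, a⟫ / ⟪c, x₀⟫) • x₀, Submodule.smul_mem _ _ (Submodule.mem_span_singleton_self _),
        by abel⟩
      refine (Submodule.mem_orthogonal_singleton_iff_inner_right).2 ?_
      rw [inner_sub_right, inner_smul_right, div_mul_cancel₀ _ hc, sub_self]
  have hinf : B ⊓ Submodule.span ℝ {x₀} = ⊥ := by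
    rw [eq_bot_iff]
    rintro y ⟨hy1, hy2⟩
    obtain ⟨t, rfl⟩ := Submodule.mem_span_singleton.1 hy2
    have h1 := (Submodule.mem_orthogonal_singleton_iff_inner_right).1 hy1.2
    rw [inner_smul_right] at h1
    have h2 : t = 0 := (mul_eq_zero.1 h1).resolve_right hc
    simp [h2]
  have h0 : x₀ ≠ 0 := by
    rintro rfl
    simp at hc
  have h1 := Submodule.finrank_sup_add_finrank_inf_eq B (Submodule.span ℝ {x₀})
  rw [hsup, hinf, finrank_bot, finrank_span_singleton h0, hA] at h1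
  omega

end lin

set_option maxHeartbeats 1000000 in
theorem tRng (hCap : S_Cap) (hPick : S_Pick) (hHsp : S_Hsp) : S_Rng := by
  intro F _ K _ _ _ M _ L E Z R Y v hT2 hLP H hR hY hA3 c hc
  by_contra hcon
  push Not at hcon
  set A : Submodule ℝ K := (Submodule.span ℝ Y)ᗮ with hA
  have hmemA : ∀ a : K, a ∈ A ↔ ∀ p ∈ Y, ⟪p, a⟫ = 0 := by
    intro a
    constructor
    · intro h p hp
      exact (Submodule.mem_orthogonal _ _).1 h p (Submodule.subset_span hp)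
    · intro h
      rw [hA, Submodule.mem_orthogonal]
      intro u hu
      induction hu using Submodule.span_induction with
      | mem x hx => exact h x hx
      | zero => simp
      | add x y _ _ hx hy => rw [inner_add_left, hx, hy, add_zero]
      | smul t x _ hx => rw [real_inner_smul_left, hx, mul_zero]
  obtain ⟨x₀, hx₀R, hx₀⟩ := hR.ne
  have hRLY : ∀ x, x ∈ R ↔ x ∈ L ∧ x ∈ A := fun x => by
    rw [← hY.ker, hmemA]
    exact Iff.rfl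
  have hx₀A : x₀ ∈ A := ((hRLY x₀).1 hx₀R).2
  have hx₀L : x₀ ∈ L := ((hRLY x₀).1 hx₀R).1
  have hcx₀ : 0 < ⟪c, x₀⟫ := hc x₀ hx₀R hx₀
  set B : Submodule ℝ K := A ⊓ (Submodule.span ℝ {c})ᗮ with hB
  have hBA : ∀ m ∈ B, m ∈ A := fun m hm => hm.1
  have hBc : ∀ m ∈ B, ⟪c, m⟫ = 0 := fun m hm =>
    (Submodule.mem_orthogonal_singleton_iff_inner_right).1 hm.2
  have hBmem : ∀ m, m ∈ A → ⟪c, m⟫ = 0 → m ∈ B := fun m h1 h2 =>
    ⟨h1, (Submodule.mem_orthogonal_singleton_iff_inner_right).2 h2⟩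
  have hB2 : finrank ℝ B = 2 := Rng_dim hA3 hx₀A hcx₀.ne'
  have hvD : ∀ y, v y ∈ Du L := fun y => H.Esub (H.vE y)
  set N : Set M := {y | v y ∉ Y} with hN
  have hNA : ∀ m ∈ A, ∀ y, ⟪v y, m⟫ ≠ 0 → y ∈ N := fun m hm y h1 h2 =>
    h1 ((hmemA m).1 hm _ h2)
  -- (1)
  have h1 : ∀ m ∈ B, m ≠ 0 → ∃ y, 0 < ⟪v y, m⟫ := by
    intro m hm hm0
    by_contra hn
    push Not at hn
    have h2 : -m ∈ L := (H.mem _).2 fun y => by
      rw [inner_neg_right]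
      linarith [hn y]
    have h3 : -m ∈ R := (hRLY _).2 ⟨h2, A.neg_mem (hBA m hm)⟩
    have h4 := hc _ h3 (neg_ne_zero.2 hm0)
    rw [inner_neg_right, hBc m hm] at h4
    linarith
  -- (2)
  have h2 : ∀ y ∈ N, ∃ m ∈ B, ⟪v y, m⟫ ≠ 0 := by
    intro y hy
    by_contra hn
    push Not at hn
    have hval : ∀ a ∈ A, ⟪v y, a⟫ = (⟪v y, x₀⟫ / ⟪c, x₀⟫) * ⟪c, a⟫ := by
      intro a ha
      have h3 : a - (⟪c, a⟫ / ⟪c, x₀⟫) • x₀ ∈ B := by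
        refine hBmem _ (A.sub_mem ha (A.smul_mem _ hx₀A)) ?_
        rw [inner_sub_right, inner_smul_right, div_mul_cancel₀ _ hcx₀.ne', sub_self]
      have h4 := hn _ h3
      rw [inner_sub_right, inner_smul_right] at h4
      have h5 : ⟪v y, a⟫ = ⟪c, a⟫ / ⟪c, x₀⟫ * ⟪v y, x₀⟫ := by linarith
      rw [h5]
      ring
    have ht : 0 ≤ ⟪v y, x₀⟫ / ⟪c, x₀⟫ := div_nonneg ((H.mem _).1 hx₀L y) hcx₀.le
    rcases ht.lt_or_eq with h3 | h3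
    · obtain ⟨a, ha, h4⟩ := hcon y _ h3
      exact h4 (hval a ha)
    · have h4 : v y ∈ Aᗮ := by
        rw [Submodule.mem_orthogonal']
        intro a ha
        rw [hval a ha, ← h3, zero_mul]
      rw [hA, Submodule.orthogonal_orthogonal] at h4
      exact hy (hY.face.mem_of_span (hvD y) h4)
  obtain ⟨y₁, hy₁, y₂, hy₂, k₁, hk₁, k₂, hk₂, e11, e21, e12, e22, hne, hli⟩ :=
    hPick K M B v N hB2 (fun m hm hm0 => by
      obtain ⟨y, hy⟩ := h1 m hm hm0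
      exact ⟨y, hNA m (hBA m hm) y hy.ne', hy.ne'⟩) h2
  have hopen : ∀ k : K, IsOpen {y : M | 0 < ⟪v y, k⟫} := fun k =>
    isOpen_lt continuous_const (H.vc.inner continuous_const)
  -- the chain `τ`
  have hconn1 : IsConnected {y : M | 0 < ⟪v y, k₁⟫} := ⟨⟨y₁, by
    show 0 < ⟪v y₁, k₁⟫
    rw [e11]
    exact one_pos⟩, H.conn k₁⟩
  have hj1 : JoinedIn {y : M | 0 < ⟪v y, k₁⟫} y₁ y₂ :=
    ((hopen k₁).isConnected_iff_isPathConnected.1 hconn1).joinedIn y₁ (by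
      show 0 < ⟪v y₁, k₁⟫
      rw [e11]
      exact one_pos) y₂ (by
      show 0 < ⟪v y₂, k₁⟫
      rw [e21]
      exact one_pos)
  obtain ⟨τ, hτ, hdτ⟩ := Ver.tJoin F M _ y₁ y₂ hj1
  -- the chain `σ`
  set S : Set M := {y : M | ∃ θ ∈ Set.Icc (0 : ℝ) Real.pi,
      0 < ⟪v y, Real.cos θ • k₂ - Real.sin θ • k₁⟫} with hS
  have hkθ : ∀ θ : ℝ, Real.cos θ • k₂ - Real.sin θ • k₁ ∈ B := fun θ =>
    B.sub_mem (B.smul_mem _ hk₂) (B.smul_mem _ hk₁)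
  have hkθ0 : ∀ θ : ℝ, Real.cos θ • k₂ - Real.sin θ • k₁ ≠ 0 := by
    intro θ h3
    have h4 := hli (-Real.sin θ) (Real.cos θ) (by
      rw [neg_smul, neg_add_eq_sub]
      exact h3)
    have h5 := Real.sin_sq_add_cos_sq θ
    rw [neg_eq_zero] at h4
    rw [h4.1, h4.2] at h5
    norm_num at h5
  have hSpre : IsPreconnected S := hHsp K M v k₁ k₂ H.vc H.conn fun θ _ => h1 _ (hkθ θ) (hkθ0 θ)
  have hSopen : IsOpen S := by
    have : S = ⋃ θ ∈ Set.Icc (0 : ℝ) Real.pi,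
        {y : M | 0 < ⟪v y, Real.cos θ • k₂ - Real.sin θ • k₁⟫} := by
      ext y
      simp [hS]
    rw [this]
    exact isOpen_biUnion fun θ _ => hopen _
  have hy₁S : y₁ ∈ S := ⟨0, ⟨le_rfl, Real.pi_pos.le⟩, by
    rw [Real.cos_zero, Real.sin_zero, one_smul, zero_smul, sub_zero, e12]
    exact one_pos⟩
  have hy₂S : y₂ ∈ S := ⟨Real.pi, ⟨Real.pi_pos.le, le_rfl⟩, by
    rw [Real.cos_pi, Real.sin_pi, zero_smul, sub_zero, neg_smul, one_smul, inner_neg_right, e22]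
    norm_num⟩
  have hj2 : JoinedIn S y₂ y₁ :=
    (hSopen.isConnected_iff_isPathConnected.1 ⟨⟨y₁, hy₁S⟩, hSpre⟩).joinedIn y₂ hy₂S y₁ hy₁S
  obtain ⟨σ, hσ, hdσ⟩ := Ver.tJoin F M _ y₂ y₁ hj2
  -- carriers
  obtain ⟨Cσ, hCσ, hCσS, hσC⟩ := Ver.tSupp F M _ 1 σ hσ
  obtain ⟨Cτ, hCτ, hCτR, hτC⟩ := Ver.tSupp F M _ 1 τ hτ
  obtain ⟨k, hkY, hkQ⟩ := hCap K M L Y v (Cσ ∪ Cτ) H.vc hvD hY.face (hCσ.union hCτ) (by
    rintro y (hy | hy)
    · obtain ⟨θ, _, hθ⟩ := hCσS hy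
      exact hNA _ (hBA _ (hkθ θ)) y hθ.ne'
    · exact hNA _ (hBA _ hk₁) y (hCτR hy).ne')
  have hXN : ∀ y, 0 < ⟪v y, k⟫ → y ∈ N := fun y hy => hNA k ((hmemA k).2 hkY) y hy.ne'
  set X : Set M := {y : M | 0 < ⟪v y, k⟫} with hX
  have hcov : (X ∩ {y | ⟪v y, k₂⟫ ≠ 0 ∨ ⟪v y, k₁⟫ < 0}) ∪ (X ∩ {y | 0 < ⟪v y, k₁⟫}) = X := by
    ext y
    constructor
    · rintro (h3 | h3)
      · exact h3.1
      · exact h3.1
    · intro hy
      rcases lt_trichotomy ⟪v y, k₁⟫ 0 with h3 | h3 | h3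
      · exact Or.inl ⟨hy, Or.inr h3⟩
      · rcases hne y (hXN y hy) with h4 | h4
        · exact absurd h3 h4
        · exact Or.inl ⟨hy, Or.inl h4⟩
      · exact Or.inr ⟨hy, h3⟩
  have hcont : ∀ k : K, Continuous fun y : M => ⟪v y, k⟫ := fun k =>
    H.vc.inner continuous_const
  have hPopen : IsOpen (X ∩ {y : M | ⟪v y, k₂⟫ ≠ 0 ∨ ⟪v y, k₁⟫ < 0}) := by
    refine (hopen k).inter ?_
    have : {y : M | ⟪v y, k₂⟫ ≠ 0 ∨ ⟪v y, k₁⟫ < 0} =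
        {y | ⟪v y, k₂⟫ ≠ 0} ∪ {y | ⟪v y, k₁⟫ < 0} := rfl
    rw [this]
    exact (isOpen_ne_fun (hcont k₂) continuous_const).union
      (isOpen_lt (hcont k₁) continuous_const)
  have hRopen : IsOpen (X ∩ {y : M | 0 < ⟪v y, k₁⟫}) := (hopen k).inter (hopen k₁)
  have hW1 : IsOpen {y : M | 0 < ⟪v y, k₁⟫ ∧ 0 < ⟪v y, k₂⟫} := (hopen k₁).inter (hopen k₂)
  have hW2 : IsOpen {y : M | 0 < ⟪v y, k₁⟫ ∧ ⟪v y, k₂⟫ < 0} :=
    (hopen k₁).inter (isOpen_lt (hcont k₂) continuous_const)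
  have hdis : Disjoint {y : M | 0 < ⟪v y, k₁⟫ ∧ 0 < ⟪v y, k₂⟫}
      {y : M | 0 < ⟪v y, k₁⟫ ∧ ⟪v y, k₂⟫ < 0} := by
    rw [Set.disjoint_left]
    rintro y ⟨_, h3⟩ ⟨_, h4⟩
    linarith
  have hsub : (X ∩ {y : M | ⟪v y, k₂⟫ ≠ 0 ∨ ⟪v y, k₁⟫ < 0}) ∩ (X ∩ {y : M | 0 < ⟪v y, k₁⟫}) ⊆
      {y : M | 0 < ⟪v y, k₁⟫ ∧ 0 < ⟪v y, k₂⟫} ∪ {y : M | 0 < ⟪v y, k₁⟫ ∧ ⟪v y, k₂⟫ < 0} := by
    rintro y ⟨⟨_, h3⟩, _, h4⟩
    have h4' : 0 < ⟪v y, k₁⟫ := h4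
    rcases h3 with h3 | h3
    · rcases lt_or_gt_of_ne h3 with h5 | h5
      · exact Or.inr ⟨h4', h5⟩
      · exact Or.inl ⟨h4', h5⟩
    · exact absurd h3 (not_lt.2 h4'.le)
  have hHI : HInj F ((X ∩ {y : M | ⟪v y, k₂⟫ ≠ 0 ∨ ⟪v y, k₁⟫ < 0}) ∪
      (X ∩ {y : M | 0 < ⟪v y, k₁⟫})) 1 := by
    rw [hcov]
    exact H.hinj k
  have hσP : σ ∈ inU F (X ∩ {y : M | ⟪v y, k₂⟫ ≠ 0 ∨ ⟪v y, k₁⟫ < 0}) 1 := by
    refine Rng_mono (U := Cσ) ?_ hσC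
    intro y hy
    refine ⟨hkQ y (Or.inl hy), ?_⟩
    obtain ⟨θ, hθ, h3⟩ := hCσS hy
    by_cases h4 : ⟪v y, k₂⟫ = 0
    · right
      rw [inner_sub_right, inner_smul_right, inner_smul_right, h4, mul_zero, zero_sub] at h3
      have h5 := Real.sin_nonneg_of_mem_Icc hθ
      by_contra h6
      have := mul_nonneg h5 (not_lt.1 h6)
      linarith
    · exact Or.inl h4
  have hτR : τ ∈ inU F (X ∩ {y : M | 0 < ⟪v y, k₁⟫}) 1 := by
    refine Rng_mono (U := Cτ) ?_ hτC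
    intro y hy
    exact ⟨hkQ y (Or.inr hy), hCτR hy⟩
  have hcross := Ver.tCross F M _ _ _ _ hPopen hRopen hW1 hW2 hdis hsub hHI y₁ y₂
    ⟨by rw [e11]; exact one_pos, by rw [e12]; exact one_pos⟩
    ⟨by rw [e21]; exact one_pos, by rw [e22]; norm_num⟩ σ hσP τ hτR hdσ hdτ
  refine hcross (H.fill Y hY.face hY.notE k hkY (σ + τ) ?_ ?_)
  · exact Submodule.add_mem _ (Rng_mono Set.inter_subset_left hσP)
      (Rng_mono Set.inter_subset_left hτR)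
  · rw [map_add, hdσ, hdτ]
    abel

end T4c

end TightRP
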