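import Pool.Agent.Lib.MP_7cdc3e_gt.C.T4c.Spec

/-!
# MP_7cdc3e_gt, C32, section T4c: SA, the face of the dual cone attached to `R`
-/

set_option autoImplicit false

open scoped RealInnerProductSpace
open Module HoloConj Pool.Agent.Lib.SingHom

namespace TightRP

namespace T4c

section

variable {K : Type} [NormedAddCommGroup K] [InnerProductSpace ℝ K]

/-- the common kernel of a face of the dual cone is the kernel of a generator -/
private theorem SA_gen {L Y : Set K} {p : K} (hY : Fa (Du L) p = Y) (hpD : p ∈ Du L) :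
    LY L Y = {x | x ∈ L ∧ ⟪p, x⟫ = 0} := by
  ext x
  constructor
  · rintro ⟨hx, h⟩
    refine ⟨hx, h p ?_⟩
    rw [← hY]
    exact ⟨hpD, 1, zero_le_one, by simpa using (Du_zero : (0 : K) ∈ Du L)⟩
  · rintro ⟨hx, h⟩
    refine ⟨hx, fun q hq => ?_⟩
    rw [← hY] at hq
    obtain ⟨hqD, t, ht, h1⟩ := hq
    have h2 := h1 x hx
    have h3 := hqD x hx
    rw [inner_sub_left, real_inner_smul_left, h, mul_zero, zero_sub] at h2
    linarith

/-- the common kernel of a face of the dual cone is a face -/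
private theorem SA_face [FiniteDimensional ℝ K] {L Y : Set K} (hL : IsCone L)
    (hD : IsCone (Du L)) (hY : Fc (Du L) Y) : Fc L (LY L Y) := by
  obtain ⟨p, hp, hpY⟩ := hY.exists_gen hD
  rw [SA_gen hpY (hY.sub hp)]
  exact Fc.kernel hL (hY.sub hp)

end

theorem tSA : S_SA := by
  intro F _ K _ _ _ M _ L E Z R v H hR
  classical
  have hL := H.cone
  have hD : IsCone (Du L) := Du_cone H.int
  obtain ⟨r, hrR, hr⟩ := hR.face.exists_gen hL
  have hrL : r ∈ L := hR.face.sub hrR
  have hr0 : r ≠ 0 := by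
    rintro rfl
    obtain ⟨x, hx, hx0⟩ := hR.ne
    rw [← hr] at hx
    obtain ⟨hxL, t, ht, h1⟩ := hx
    rw [smul_zero, zero_sub] at h1
    exact hx0 (hL.pointed x hxL h1)
  have hrZ : r ∈ Z := hR.thin r hrR hr0
  have hrDD : r ∈ Du (Du L) := fun k hk => by
    rw [real_inner_comm]; exact hk r hrL
  set N : Set K := {p | p ∈ Du L ∧ ⟪r, p⟫ = 0} with hNdef
  have hN : Fc (Du L) N := Fc.kernel hD hrDD
  have hNthin : Thin Z (LY L N) := fun x hx hx0 =>
    H.a1 r hrZ x hx.1 hx0 fun y hy => hx.2 (v y) ⟨H.Esub (H.vE y), by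
      rw [real_inner_comm]; exact hy⟩
  have hex : ∃ n, ∃ Y, Fc (Du L) Y ∧ Y ⊆ N ∧ Thin Z (LY L Y) ∧ dm Y = n :=
    ⟨dm N, N, hN, subset_rfl, hNthin, rfl⟩
  obtain ⟨Y, hY, hYN, hYthin, hYd⟩ := Nat.find_spec hex
  have hmin : ∀ Y', Fc (Du L) Y' → Y' ⊆ N → Thin Z (LY L Y') → dm Y ≤ dm Y' := by
    intro Y' h1 h2 h3
    rw [hYd]
    exact Nat.find_min' hex ⟨Y', h1, h2, h3, rfl⟩
  have hker : LY L Y = R := by
    refine hR.max _ (SA_face hL hD hY) hYthin fun x hx => ?_
    have hxL := hR.face.sub hx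
    refine ⟨hxL, fun q hq => ?_⟩
    rw [← hr] at hx
    obtain ⟨_, t, ht, h1⟩ := hx
    have hqN := hYN hq
    have h2 := hqN.1 _ h1
    have h3 := hqN.1 x hxL
    have h4 : ⟪q, r⟫ = 0 := by rw [real_inner_comm]; exact hqN.2
    rw [inner_sub_right, inner_smul_right, h4, mul_zero, zero_sub] at h2
    linarith
  have hnotE : ¬ Y ⊆ E := by
    intro hYE
    obtain ⟨p, hp, hpY⟩ := hY.exists_gen hD
    have hpD := hY.sub hp
    by_cases hp0 : p = 0
    · obtain ⟨h, hh⟩ := H.int
      have hhL : h ∈ L := interior_subset hh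
      have hmem : h ∈ LY L Y := by
        rw [SA_gen hpY hpD]
        exact ⟨hhL, by rw [hp0, inner_zero_left]⟩
      have hh0 : h ≠ 0 := by
        rintro rfl
        have h1 : ∀ w : K, w = 0 := by
          intro w
          obtain ⟨ε, hε, h1⟩ := interior_eps hh w
          have h2 := h1 ε (abs_of_pos hε).le
          have h3 := h1 (-ε) (by rw [abs_neg]; exact (abs_of_pos hε).le)
          rw [zero_add] at h2 h3
          rw [neg_smul] at h3
          have h4 := hL.pointed _ h2 h3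
          exact (smul_eq_zero.1 h4).resolve_left hε.ne'
        have h2 : finrank ℝ K = 0 := by
          haveI : Subsingleton K := ⟨fun a b => by rw [h1 a, h1 b]⟩
          exact finrank_zero_of_subsingleton
        have h3 := H.dim
        omega
      exact H.a2 h (hYthin h hmem hh0) hh
    · obtain ⟨x, hx, hpx, hx0, hxZ⟩ := H.a3 p (hYE hp) hp0
      exact hxZ (hYthin x (by rw [SA_gen hpY hpD]; exact ⟨hx, hpx⟩) hx0)
  refine ⟨Y, hY, hker, ?_, ?_, hnotE⟩
  · intro Y' hY' hsub hne hthin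
    have h1 := hY'.dm_lt hY hsub hne
    have h2 := hmin Y' hY' (hsub.trans hYN) hthin
    omega
  · by_contra hlt
    exact hnotE (H.a11 Y hY (by omega))

end T4c

end TightRP
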