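import Pool.Agent.Lib.MP_7cdc3e_gt.C.T4c.Spec

/-!
# MP_7cdc3e_gt, C32, section T4c: the statement `S_SB` (the section property)
-/

set_option autoImplicit false

open scoped RealInnerProductSpace
open Module HoloConj Pool.Agent.Lib.SingHom

namespace TightRP

namespace T4c

/-- the kernel in `L` of a face of the dual cone with generator `e` -/
private theorem SB_ker {K : Type} [NormedAddCommGroup K] [InnerProductSpace ℝ K] {L : Set K}
    (hD : IsCone (Du L)) {e : K} (he : e ∈ Du L) :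
    LY L (Fa (Du L) e) = {x | x ∈ L ∧ ⟪e, x⟫ = 0} := by
  ext x
  constructor
  · rintro ⟨hx, h⟩
    exact ⟨hx, h e (mem_Fa hD he)⟩
  · rintro ⟨hx, h⟩
    refine ⟨hx, ?_⟩
    rintro q ⟨hq, t, -, ht⟩
    have h1 := hq x hx
    have h2 := ht x hx
    rw [inner_sub_left, real_inner_smul_left, h, mul_zero] at h2
    linarith

private theorem SB_mem {K : Type} [NormedAddCommGroup K] [InnerProductSpace ℝ K] {Y : Set K}
    {x : K} (h : ∀ q ∈ Y, ⟪q, x⟫ = 0) : x ∈ (Submodule.span ℝ Y)ᗮ := by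
  rw [Submodule.mem_orthogonal]
  intro u hu
  induction hu using Submodule.span_induction with
  | mem q hq => exact h q hq
  | zero => exact inner_zero_left _
  | add a b _ _ ha hb => rw [inner_add_left, ha, hb, add_zero]
  | smul t a _ ha => rw [real_inner_smul_left, ha, mul_zero]

theorem tSB (hSep : S_Sep) (hLea : S_Lea) (hCls : S_Cls) : S_SB := by
  intro F _ K _ _ _ M _ L E Z R Y v H hR hY
  have hL : IsCone L := H.cone
  have hD : IsCone (Du L) := Du_cone H.int
  have hYc : IsCone Y := hY.face.isCone hD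
  have hLR : ∀ x ∈ L, x ∈ (Submodule.span ℝ Y)ᗮ → x ∈ R := by
    intro x hx hxA
    rw [← hY.ker]
    exact ⟨hx, fun q hq => (Submodule.mem_orthogonal _ _).1 hxA q (Submodule.subset_span hq)⟩
  have hRA : ∀ x ∈ R, x ∈ (Submodule.span ℝ Y)ᗮ := by
    intro x hx
    rw [← hY.ker] at hx
    exact SB_mem hx.2
  obtain ⟨y₀, hy₀, hgen⟩ := hY.face.exists_gen hD
  have hpos : ∀ f ∈ L, f ∉ R → 0 < ⟪y₀, f⟫ := by
    intro f hf hfR
    refine lt_of_le_of_ne (hY.face.sub hy₀ f hf) fun h0 => hfR ?_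
    rw [← hY.ker, ← hgen, SB_ker hD (hY.face.sub hy₀)]
    exact ⟨hf, h0.symm⟩
  have hmain : ∀ G, Fc L G → ¬ Thin Z G → Dis G R → ∀ x ∈ L, ∃ f ∈ G,
      x - f ∈ (Submodule.span ℝ Y)ᗮ := by
    intro G hG hGt hGR x hx
    by_contra hno
    have hcl := hCls K G (Submodule.span ℝ Y)ᗮ (hG.closed hL) hG.zero hG.smul
      fun z hz hzA => hGR z hz (hLR z (hG.sub hz) hzA)
    obtain ⟨y, hy, hyx⟩ := hSep K {z : K | ∃ f ∈ G, z - f ∈ (Submodule.span ℝ Y)ᗮ} hcl
      ⟨0, hG.zero, by rw [sub_zero]; exact Submodule.zero_mem _⟩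
      (by
        rintro a ⟨f, hf, hfa⟩ b ⟨g, hg, hgb⟩
        refine ⟨f + g, hG.add f hf g hg, ?_⟩
        rw [add_sub_add_comm]
        exact Submodule.add_mem _ hfa hgb)
      (by
        rintro a ⟨f, hf, hfa⟩ t ht
        refine ⟨t • f, hG.smul f hf t ht, ?_⟩
        rw [← smul_sub]
        exact Submodule.smul_mem _ _ hfa) x hno
    have hyA : ∀ a ∈ (Submodule.span ℝ Y)ᗮ, ⟪y, a⟫ = 0 := by
      intro a ha
      have h1 := hy a ⟨0, hG.zero, by rw [sub_zero]; exact ha⟩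
      have h2 := hy (-a) ⟨0, hG.zero, by rw [sub_zero]; exact Submodule.neg_mem _ ha⟩
      rw [inner_neg_right] at h2
      linarith
    have hysp : y ∈ Submodule.span ℝ Y := by
      rw [← Submodule.orthogonal_orthogonal (Submodule.span ℝ Y), Submodule.mem_orthogonal']
      exact hyA
    have hyG : ∀ f ∈ G, 0 ≤ ⟪y, f⟫ := fun f hf =>
      hy f ⟨f, hf, by rw [sub_self]; exact Submodule.zero_mem _⟩
    have hyY : y ∉ Y := by
      intro h
      have := hY.face.sub h x hx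
      linarith
    obtain ⟨t, ht0, ht1, he, hne⟩ := hLea K Y hYc y₀ hy₀ y hysp hyY
    obtain ⟨e, hee⟩ : ∃ e, e = (1 - t) • y₀ + t • y := ⟨_, rfl⟩
    rw [← hee] at he hne
    have heD : e ∈ Du L := hY.face.sub he
    rw [Fa_in hY.face he] at hne
    have hsub : Fa (Du L) e ⊆ Y := Fa_sub hY.face he
    have hnt := hY.prop _ (Fa_face hD heD) hsub hne
    rw [SB_ker hD heD] at hnt
    obtain ⟨f, hf, ⟨-, hef⟩, hf0⟩ := H.a5 G _ hG (Fc.kernel hL heD) hGt hnt
    have h1 := hpos f (hG.sub hf) fun h => hf0 (hGR f hf h)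
    have h2 := hyG f hf
    rw [hee, inner_add_left, real_inner_smul_left, real_inner_smul_left] at hef
    have h3 : 0 < (1 - t) * ⟪y₀, f⟫ := mul_pos (by linarith) h1
    have h4 : 0 ≤ t * ⟪y, f⟫ := mul_nonneg ht0 h2
    linarith
  refine ⟨?_, hmain⟩
  have hfin := Submodule.finrank_add_finrank_orthogonal (Submodule.span ℝ Y)
  rw [H.dim] at hfin
  have h3 : 3 ≤ finrank ℝ (Submodule.span ℝ Y) := hY.three
  have hdR : dm R ≤ 3 := by
    have h1 : Submodule.span ℝ R ≤ (Submodule.span ℝ Y)ᗮ := by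
      rw [Submodule.span_le]
      exact hRA
    have h2 := Submodule.finrank_mono h1
    unfold dm
    omega
  obtain ⟨e, heE, hepos⟩ := H.a7 R hR.face hR.thin hdR
  obtain ⟨r, hr, hr0⟩ := hR.ne
  have he0 : e ≠ 0 := by
    rintro rfl
    have := hepos r hr hr0
    rw [inner_zero_left] at this
    exact lt_irrefl _ this
  obtain ⟨x, hx, hex, hx0, hxZ⟩ := H.a3 e heE he0
  have hnt : ¬ Thin Z {x | x ∈ L ∧ ⟪e, x⟫ = 0} := fun h => hxZ (h x ⟨hx, hex⟩ hx0)
  obtain ⟨G, hGs, hG, hGt, hG3⟩ := H.a4 _ (Fc.kernel hL (H.Esub heE)) hnt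
  have hGR : Dis G R := by
    intro z hz hzR
    by_contra hz0
    have h1 := hepos z hzR hz0
    have h2 := (hGs hz).2
    linarith
  have htop : (⊤ : Submodule ℝ K) ≤ Submodule.span ℝ G ⊔ (Submodule.span ℝ Y)ᗮ := by
    rw [← span_top H.int, Submodule.span_le]
    intro z hz
    obtain ⟨f, hf, hzf⟩ := hmain G hG hGt hGR z hz
    have h1 : z = f + (z - f) := by abel
    rw [h1]
    exact Submodule.add_mem_sup (Submodule.subset_span hf) hzf
  have h4 := Submodule.finrank_mono htop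
  rw [finrank_top, H.dim] at h4
  have h5 := Submodule.finrank_add_le_finrank_add_finrank (Submodule.span ℝ G)
    (Submodule.span ℝ Y)ᗮ
  unfold dm at hG3
  omega

end T4c

end TightRP
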