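import Pool.Agent.Lib.MP_7cdc3e_gt.C.T4c.Spec

/-!
# MP_7cdc3e_gt, C32, section T4c: the statement `S_Sec` (the section property in the language of `C/D1`)
-/

set_option autoImplicit false

open scoped RealInnerProductSpace
open Module HoloConj Pool.Agent.Lib.SingHom

namespace TightRP

namespace T4c

private theorem Sec_mem {K : Type} [NormedAddCommGroup K] [InnerProductSpace ℝ K] {Y : Set K}
    {x : K} (h : ∀ q ∈ Y, ⟪q, x⟫ = 0) : x ∈ (Submodule.span ℝ Y)ᗮ := by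
  rw [Submodule.mem_orthogonal]
  intro u hu
  induction hu using Submodule.span_induction with
  | mem q hq => exact h q hq
  | zero => exact inner_zero_left _
  | add a b _ _ ha hb => rw [inner_add_left, ha, hb, add_zero]
  | smul t a _ ha => rw [real_inner_smul_left, ha, mul_zero]

/-- a linear map onto `ℝ³` with a given kernel of codimension three -/
private theorem Sec_proj {K : Type} [NormedAddCommGroup K] [InnerProductSpace ℝ K]
    [FiniteDimensional ℝ K] (A : Submodule ℝ K) (hK : finrank ℝ K = 6) (hA : finrank ℝ A = 3) :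
    ∃ π : K →ₗ[ℝ] (Fin 3 → ℝ), Function.Surjective π ∧ ∀ x, π x = 0 ↔ x ∈ A := by
  have h1 := Submodule.finrank_quotient_add_finrank A
  have h2 : finrank ℝ (K ⧸ A) = finrank ℝ (Fin 3 → ℝ) := by
    rw [finrank_fintype_fun_eq_card, Fintype.card_fin]
    omega
  refine ⟨(LinearEquiv.ofFinrankEq (K ⧸ A) (Fin 3 → ℝ) h2).toLinearMap ∘ₗ A.mkQ, ?_, fun x => ?_⟩
  · exact (LinearEquiv.surjective _).comp A.mkQ_surjective
  · rw [LinearMap.comp_apply, LinearEquiv.coe_coe, LinearEquiv.map_eq_zero_iff, Submodule.mkQ_apply,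
      Submodule.Quotient.mk_eq_zero]

theorem tSec (hSA : S_SA) (hSB : S_SB) (hRng : S_Rng) : S_Sec := by
  intro F _ K _ _ _ M _ L E Z R v hT2 hLP H hR
  have hL : IsCone L := H.cone
  obtain ⟨Y, hY⟩ := hSA F K M L E Z R v H hR
  obtain ⟨hA3, hsec⟩ := hSB F K M L E Z R Y v H hR hY
  obtain ⟨π, hπs, hπk⟩ := Sec_proj (Submodule.span ℝ Y)ᗮ H.dim hA3
  have hRA : ∀ x ∈ R, x ∈ (Submodule.span ℝ Y)ᗮ := by
    intro x hx
    rw [← hY.ker] at hx
    exact Sec_mem hx.2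
  refine ⟨π, hπs, fun x => ⟨fun hx => ⟨hR.face.sub hx, (hπk x).2 (hRA x hx)⟩, ?_⟩, ?_⟩
  · rintro ⟨hx, hx0⟩
    rw [← hY.ker]
    exact ⟨hx, fun q hq => (Submodule.mem_orthogonal _ _).1 ((hπk x).1 hx0) q
      (Submodule.subset_span hq)⟩
  · intro c hc
    obtain ⟨c₀, hc₀⟩ : ∃ c₀ : K, ∀ x, ⟪c₀, x⟫ = c x := by
      refine ⟨(InnerProductSpace.toDual ℝ K).symm (LinearMap.toContinuousLinearMap c),
        fun x => ?_⟩
      rw [InnerProductSpace.toDual_symm_apply]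
      rfl
    obtain ⟨y, t, ht, hy⟩ := hRng F K M L E Z R Y v hT2 hLP H hR hY hA3 c₀ (by
      intro x hx hx0
      rw [hc₀]
      exact hc x hx hx0)
    have he : ∀ a ∈ (Submodule.span ℝ Y)ᗮ, ⟪t⁻¹ • v y, a⟫ = c a := by
      intro a ha
      rw [real_inner_smul_left, hy a ha, hc₀, ← mul_assoc, inv_mul_cancel₀ ht.ne', one_mul]
    have heE : t⁻¹ • v y ∈ E := H.Esm _ (H.vE y) _ (inv_nonneg.2 ht.le)
    obtain ⟨r, hr, hr0⟩ := hR.ne
    have he0 : t⁻¹ • v y ≠ 0 := by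
      intro h0
      have h1 := he r (hRA r hr)
      rw [h0, inner_zero_left] at h1
      have := hc r hr hr0
      linarith
    obtain ⟨x, hx, hex, hx0, hxZ⟩ := H.a3 _ heE he0
    have hnt : ¬ Thin Z {x | x ∈ L ∧ ⟪t⁻¹ • v y, x⟫ = 0} := fun h => hxZ (h x ⟨hx, hex⟩ hx0)
    have hGR : Dis {x | x ∈ L ∧ ⟪t⁻¹ • v y, x⟫ = 0} R := by
      rintro z ⟨hz, hez⟩ hzR
      by_contra hz0
      have h1 := hc z hzR hz0
      rw [he z (hRA z hzR)] at hez
      linarith
    refine ⟨innerₛₗ ℝ (t⁻¹ • v y), fun x hx => he x ((hπk x).1 hx),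
      fun l hl => H.Esub heE l hl, fun hsub => ?_, fun l hl => ?_⟩
    · rcases hsub (show x ∈ {l | l ∈ L ∧ innerₛₗ ℝ (t⁻¹ • v y) l = 0} from ⟨hx, hex⟩) with h | h
      · exact hx0 h
      · exact hxZ h
    · obtain ⟨f, ⟨hf, hef⟩, hlf⟩ := hsec _ (Fc.kernel hL (H.Esub heE)) hnt hGR l hl
      refine ⟨f, hf, hef, ?_⟩
      have h1 := (hπk (l - f)).2 hlf
      rw [map_sub, sub_eq_zero] at h1
      exact h1.symm

end T4c

end TightRP
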