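import Pool.Agent.Lib.MP_7cdc3e_gt.C.T4c.Spec

set_option autoImplicit false

open scoped RealInnerProductSpace
open Module HoloConj Pool.Agent.Lib.SingHom

namespace TightRP

namespace T4c

theorem tSep : S_Sep := by
  intro K _ _ _ C hcl h0 hadd hsmul x hx
  have : CompleteSpace K := FiniteDimensional.complete ℝ K
  have hconv : Convex ℝ C := by
    intro a ha b hb s t hs ht _
    exact hadd _ (hsmul a ha s hs) _ (hsmul b hb t ht)
  obtain ⟨f, u, hfu, hux⟩ := geometric_hahn_banach_closed_point hconv hcl hx
  have hu : 0 < u := by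
    have := hfu 0 h0
    simpa using this
  have hfC : ∀ z ∈ C, f z ≤ 0 := by
    intro z hz
    by_contra hpos
    push Not at hpos
    have h1 := hfu _ (hsmul z hz (u / f z) (by positivity))
    rw [map_smul, smul_eq_mul, div_mul_cancel₀ _ hpos.ne'] at h1
    exact lt_irrefl _ h1
  refine ⟨-((InnerProductSpace.toDual ℝ K).symm f), ?_, ?_⟩
  · intro z hz
    rw [inner_neg_left, InnerProductSpace.toDual_symm_apply]
    linarith [hfC z hz]
  · rw [inner_neg_left, InnerProductSpace.toDual_symm_apply]
    linarith

end T4c

end TightRP
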