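import Pool.Agent.Lib.MP_7cdc3e_gt.C.T4c.Spec

/-!
# MP_7cdc3e_gt, C32, T4c: the axioms give `D1.Sys`
-/

set_option autoImplicit false

open scoped RealInnerProductSpace Topology
open Module

namespace TightRP

namespace T4c

private theorem T4c_face {K : Type} [NormedAddCommGroup K] [InnerProductSpace ℝ K] {L G : Set K} :
    D1.Face L G ↔ Fc L G :=
  ⟨fun h => ⟨h.sub, h.cone.zero, h.cone.add, fun x hx t ht => h.cone.smul t ht x hx, h.ext⟩,
    fun h => ⟨⟨h.zero, h.add, fun t ht x hx => h.smul x hx t ht⟩, h.sub, h.ext⟩⟩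

private theorem T4c_thin {K : Type} [NormedAddCommGroup K] [InnerProductSpace ℝ K] {Z G : Set K} :
    G ⊆ insert 0 Z ↔ Thin Z G := by
  constructor
  · intro h x hx hx0
    rcases h hx with h1 | h1
    · exact absurd h1 hx0
    · exact h1
  · intro h x hx
    by_cases hx0 : x = 0
    · exact Or.inl hx0
    · exact Or.inr (h x hx hx0)

theorem tT4c (hSec : S_Sec) : S_T4c := by
  intro F _ K _ _ _ M _ L E Z v hT2 hloc H
  refine ⟨⟨⟨H.cone.zero, H.cone.add, fun t ht x hx => H.cone.smul x hx t ht⟩, H.cone.closed,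
    H.cone.pointed⟩, H.dim, span_top H.int, ?_, ?_, ?_, ?_⟩
  · intro G G' hG hG' hn hn'
    rw [T4c_thin] at hn hn'
    exact H.a5 G G' (T4c_face.1 hG) (T4c_face.1 hG') hn hn'
  · intro G hG hn
    rw [T4c_thin] at hn
    obtain ⟨G', h1, h2, h3, h4⟩ := H.a4 G (T4c_face.1 hG) hn
    exact ⟨G', h1, T4c_face.2 h2, fun h => h3 (T4c_thin.1 h), h4⟩
  · intro G hG hn hd
    rw [T4c_thin] at hn
    obtain ⟨G₁, G₂, h1, h2, h3, ⟨h4, h5, h6⟩, h7, h8, h9⟩ := H.a8 G (T4c_face.1 hG) hn hd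
    exact ⟨G₁, G₂, h1, h2, h3, ⟨T4c_face.2 h4, fun h => h5 (T4c_thin.1 h), h6⟩,
      T4c_face.2 h7, fun h => h8 (T4c_thin.1 h), h9⟩
  · rintro R ⟨hR, hRZ, hR0, hmax⟩ _
    refine hSec F K M L E Z R v hT2 hloc H ⟨T4c_face.1 hR, T4c_thin.1 hRZ, ?_, ?_⟩
    · by_contra hcon
      push Not at hcon
      exact hR0 (Set.eq_singleton_iff_unique_mem.2 ⟨hR.cone.zero, hcon⟩)
    · intro R' hR' hT hsub
      exact hmax R' (T4c_face.2 hR') hsub (T4c_thin.2 hT)

end T4c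

end TightRP
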