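import Pool.Agent.Lib.MP_7cdc3e_gt.C.T4c.Spec

/-!
# MP_7cdc3e_gt, C32, T4c, Cls: `C + A` is closed if `C ∩ A = 0`
-/

set_option autoImplicit false

open scoped RealInnerProductSpace Topology
open Module Filter

namespace TightRP

namespace T4c

private theorem Cls_bd (K : Type) [NormedAddCommGroup K] [InnerProductSpace ℝ K]
    [FiniteDimensional ℝ K] (C : Set K) (A : Submodule ℝ K) (hC : IsClosed C)
    (hs : ∀ x ∈ C, ∀ t : ℝ, 0 ≤ t → t • x ∈ C) (hA : ∀ x ∈ C, x ∈ A → x = 0) :
    ∃ c : ℝ, 0 < c ∧ ∀ x ∈ C, ∀ a ∈ A, c * ‖x‖ ≤ ‖x - a‖ := by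
  have hAcl : IsClosed (A : Set K) := Submodule.closed_of_finiteDimensional A
  have : ProperSpace K := FiniteDimensional.proper_real K
  set S : Set K := C ∩ Metric.sphere (0 : K) 1 with hS
  have hScpt : IsCompact S := (isCompact_sphere (0 : K) 1).inter_left hC
  have hnorm : ∀ x ∈ C, x ≠ 0 → ‖x‖⁻¹ • x ∈ S := by
    intro x hx hx0
    refine ⟨hs x hx _ (inv_nonneg.2 (norm_nonneg _)), ?_⟩
    rw [mem_sphere_zero_iff_norm, norm_smul, norm_inv, norm_norm,
      inv_mul_cancel₀ (norm_ne_zero_iff.2 hx0)]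
  rcases S.eq_empty_or_nonempty with h0 | hne
  · refine ⟨1, one_pos, fun x hx a _ => ?_⟩
    have hx0 : x = 0 := by
      by_contra h
      have := hnorm x hx h
      rw [h0] at this
      exact this
    subst hx0
    simp
  · obtain ⟨u, hu, hmin⟩ := hScpt.exists_isMinOn hne
      (Metric.continuous_infDist_pt (A : Set K)).continuousOn
    have hAne : (A : Set K).Nonempty := ⟨0, A.zero_mem⟩
    have hpos : 0 < Metric.infDist u (A : Set K) := by
      rcases (Metric.infDist_nonneg (x := u) (s := (A : Set K))).lt_or_eq with h | h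
      · exact h
      · exfalso
        have h1 : u ∈ (A : Set K) := (hAcl.mem_iff_infDist_zero hAne).2 h.symm
        have h2 := hA u hu.1 h1
        have h3 := hu.2
        rw [h2, mem_sphere_zero_iff_norm, norm_zero] at h3
        exact zero_ne_one h3
    refine ⟨_, hpos, fun x hx a ha => ?_⟩
    rcases eq_or_ne x 0 with h0 | h0
    · subst h0; simp
    · have hxn : 0 < ‖x‖ := norm_pos_iff.2 h0
      have h1 : Metric.infDist u (A : Set K) ≤ Metric.infDist (‖x‖⁻¹ • x) (A : Set K) :=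
        hmin (hnorm x hx h0)
      have h2 : Metric.infDist (‖x‖⁻¹ • x) (A : Set K) ≤ dist (‖x‖⁻¹ • x) (‖x‖⁻¹ • a) :=
        Metric.infDist_le_dist_of_mem (A.smul_mem _ ha)
      rw [dist_eq_norm, ← smul_sub, norm_smul, norm_inv, norm_norm] at h2
      have h3 := h1.trans h2
      rw [inv_mul_eq_div, le_div_iff₀ hxn] at h3
      exact h3

theorem tCls : S_Cls := by
  intro K _ _ _ C A hC h0 hs hA
  have : ProperSpace K := FiniteDimensional.proper_real K
  have hAcl : IsClosed (A : Set K) := Submodule.closed_of_finiteDimensional A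
  obtain ⟨c, hc, hb⟩ := Cls_bd K C A hC hs hA
  refine IsSeqClosed.isClosed fun z z₀ hz hlim => ?_
  choose x hx hxA using hz
  obtain ⟨B, hB⟩ := (hlim.norm).bddAbove_range
  have hxb : ∀ n, x n ∈ Metric.closedBall (0 : K) (B / c) := by
    intro n
    rw [mem_closedBall_zero_iff, le_div_iff₀ hc]
    have h1 := hb (x n) (hx n) (-(z n - x n)) (A.neg_mem (hxA n))
    have h2 : x n - -(z n - x n) = z n := by abel
    rw [h2] at h1
    have h3 : ‖z n‖ ≤ B := hB ⟨n, rfl⟩
    linarith
  obtain ⟨x₀, _, φ, hφ, hx₀⟩ := (isCompact_closedBall (0 : K) (B / c)).tendsto_subseq hxb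
  refine ⟨x₀, hC.mem_of_tendsto hx₀ (Eventually.of_forall fun n => hx (φ n)), ?_⟩
  have h1 : Tendsto (fun n => z (φ n) - x (φ n)) atTop (𝓝 (z₀ - x₀)) :=
    (hlim.comp hφ.tendsto_atTop).sub hx₀
  exact hAcl.mem_of_tendsto h1 (Eventually.of_forall fun n => hxA (φ n))

end T4c

end TightRP
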