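import Pool.Agent.Lib.MP_7cdc3e_gt.C.T4c.Cone
import Pool.Agent.Lib.MP_7cdc3e_gt.C.D1.Spec

/-!
# MP_7cdc3e_gt, C32, section T4c (SEC): the interface between T4a, T4b and D1

`K` is the six-dimensional span of the cone `L = N_z` of a regular point, `v y : K` the evaluation at `y` as
a vector (`⟪v y, k⟫ = ev k y`), `E` the set of the evaluations (closure of `{t • v y}`), `Z` the
functions of rank one.
-/

set_option autoImplicit false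

open scoped RealInnerProductSpace
open Module HoloConj Pool.Agent.Lib.SingHom

namespace TightRP

namespace T4c

variable {K : Type} [NormedAddCommGroup K] [InnerProductSpace ℝ K]
  {M : Type} [TopologicalSpace M]

/-- what T4a and T4b deliver for a regular point -/
structure Hyp (F : Type) [Field F] (L E Z : Set K) (v : M → K) : Prop where
  dim : finrank ℝ K = 6
  cone : IsCone L
  int : (interior L).Nonempty
  vc : Continuous v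
  mem : ∀ k, k ∈ L ↔ ∀ y, 0 ≤ ⟪v y, k⟫
  vE : ∀ y, v y ∈ E
  Esub : E ⊆ Du L
  Esm : ∀ e ∈ E, ∀ t : ℝ, 0 ≤ t → t • e ∈ E
  Zsub : ∀ g ∈ Z, g ∈ L ∧ g ≠ 0
  /-- (a1) -/
  a1 : ∀ r ∈ Z, ∀ p ∈ L, p ≠ 0 → (∀ y, ⟪v y, r⟫ = 0 → ⟪v y, p⟫ = 0) → p ∈ Z
  /-- (a2), weak form -/
  a2 : ∀ g ∈ Z, g ∉ interior L
  /-- (a3) the kernel of an evaluation is not thin -/
  a3 : ∀ e ∈ E, e ≠ 0 → ∃ x ∈ L, ⟪e, x⟫ = 0 ∧ x ≠ 0 ∧ x ∉ Z
  /-- (a4) a not thin face contains a line -/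
  a4 : ∀ G, Fc L G → ¬ Thin Z G → ∃ G', G' ⊆ G ∧ Fc L G' ∧ ¬ Thin Z G' ∧ dm G' = 3
  /-- (a5) two faces which are not thin have a common element -/
  a5 : ∀ G G', Fc L G → Fc L G' → ¬ Thin Z G → ¬ Thin Z G' → ∃ x ∈ G, x ∈ G' ∧ x ≠ 0
  /-- (a7) -/
  a7 : ∀ R, Fc L R → Thin Z R → dm R ≤ 3 → ∃ e ∈ E, ∀ x ∈ R, x ≠ 0 → 0 < ⟪e, x⟫
  /-- (a8) a four-dimensional not thin face contains two lines -/
  a8 : ∀ G, Fc L G → ¬ Thin Z G → dm G = 4 → ∃ G₁ G₂, G₁ ≠ G₂ ∧ G₁ ⊆ G ∧ G₂ ⊆ G ∧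
    (Fc L G₁ ∧ ¬ Thin Z G₁ ∧ dm G₁ = 3) ∧ Fc L G₂ ∧ ¬ Thin Z G₂ ∧ dm G₂ = 3
  /-- (a11) -/
  a11 : ∀ Y, Fc (Du L) Y → dm Y ≤ 2 → Y ⊆ E
  /-- FILL': if `Y` is not contained in `E` and `k = 0` on `Y` then `{k > 0}` is even, so every `1`-cycle in
  it is a boundary -/
  fill : ∀ Y, Fc (Du L) Y → ¬ Y ⊆ E → ∀ k : K, (∀ y ∈ Y, ⟪y, k⟫ = 0) →
    ∀ z ∈ inU F {y : M | 0 < ⟪v y, k⟫} 1, sbd F 0 z = 0 → IsBdry F 1 z
  /-- (H0) -/
  conn : ∀ k : K, IsPreconnected {y : M | 0 < ⟪v y, k⟫}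
  /-- tightness in degree one -/
  hinj : ∀ k : K, HInj F {y : M | 0 < ⟪v y, k⟫} 1

/-- maximal thin face `≠ 0` -/
structure MaxT (L Z R : Set K) : Prop where
  face : Fc L R
  thin : Thin Z R
  ne : ∃ x ∈ R, x ≠ 0
  max : ∀ R', Fc L R' → Thin Z R' → R ⊆ R' → R' = R

/-- the common kernel in `L` of a set of functionals -/
def LY (L Y : Set K) : Set K := {x | x ∈ L ∧ ∀ q ∈ Y, ⟪q, x⟫ = 0}

/-- (A'): the face `Y` of the dual cone attached to `R` -/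
structure YR (L E Z R Y : Set K) : Prop where
  face : Fc (Du L) Y
  ker : LY L Y = R
  prop : ∀ Y', Fc (Du L) Y' → Y' ⊆ Y → Y' ≠ Y → ¬ Thin Z (LY L Y')
  three : 3 ≤ dm Y
  notE : ¬ Y ⊆ E

end T4c

end TightRP
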